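import Pool.Agent.H321R3.PC.Det
import Pool.Agent.H332B.Low

/-! Lower bound for the number of close pairs of a long block, with the lower bound for the form
factor beyond `1`. -/

open Complex Filter Topology Set MeasureTheory
open scoped BigOperators ComplexConjugate

namespace H321PC

open H370 H370.A2 H370.A3 H370.AS H295SI

/-- the lower bound function -/
noncomputable def VB (β : ℝ) : ℝ :=
  gg β 1 + 2 * ∫ α in (1 : ℝ)..(3 / 2), (3 / 2 - α) * ps β α

lemma ps_zero_of {β α : ℝ} (hβ : 0 < β) (h : 1 / β ≤ |α|) : ps β α = 0 := by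
  unfold ps
  have : 1 ≤ β * |α| := by rw [div_le_iff₀ hβ] at h; linarith
  rw [min_eq_right this, ss_one, mul_zero]

lemma ps_even (β α : ℝ) : ps β (-α) = ps β α := by unfold ps; rw [abs_neg]

lemma JN_cont {A B : ℝ} (hA : 1 ≤ A) (L : ℝ) :
    Continuous fun α : ℝ => JN riemannZeta A B (α * L) := by
  unfold JN
  exact ((JJ_cont good_zeta hA).comp (by fun_prop)).div_const _

lemma JN_even {A B : ℝ} (hA : 1 ≤ A) (L α : ℝ) :
    JN riemannZeta A B (-α * L) = JN riemannZeta A B (α * L) := by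
  unfold JN
  rw [neg_mul, JJ_even good_zeta hA]

lemma QQp_ge' (hRH : RiemannHypothesis) {β A B L : ℝ} (hβ : 0 < β)
    (hA : 1 ≤ A) (hL : 0 < L) :
    2 * ∫ α in (0 : ℝ)..(1 / β), ps β α * JN riemannZeta A B (α * L) ≤ QQp β A B L := by
  have hpi := Real.pi_pos
  have hJc := JN_cont (B := B) hA L
  have h0 : ∫ α in (-(1 / β))..(1 / β), ps β α * JN riemannZeta A B (α * L) =
      2 * ∫ α in (0 : ℝ)..(1 / β), ps β α * JN riemannZeta A B (α * L) := by
    rw [int_sym (fun α => ps β α * JN riemannZeta A B (α * L)) ((ps_cont β).mul hJc),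
      ← intervalIntegral.integral_const_mul]
    refine intervalIntegral.integral_congr fun α _ => ?_
    show ps β α * JN riemannZeta A B (α * L) + ps β (-α) * JN riemannZeta A B (-α * L) = _
    rw [ps_even, JN_even hA]
    ring
  rw [← h0, int_JN hRH hA (ps_cont β)]
  unfold QQp
  refine Finset.sum_le_sum fun s _ => Finset.sum_le_sum fun s' _ => ?_
  apply mul_le_mul_of_nonneg_left _ (by positivity)
  rw [RR_ps hβ]
  set d := s.im - s'.im with hd
  have he0 := Real.exp_pos (-d ^ 2 / 4)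
  have he1 : Real.exp (-d ^ 2 / 4) ≤ 1 := by
    rw [Real.exp_le_one_iff]
    have := sq_nonneg d
    linarith
  split_ifs with h
  · have h2 := HH_le (d * L / (2 * Real.pi) / β)
    rcases le_or_gt (HH (d * L / (2 * Real.pi) / β)) 0 with h3 | h3
    · have := mul_nonpos_of_nonpos_of_nonneg h3 he0.le
      linarith
    · exact mul_le_one₀ h2 he0.le he1
  · push Not at h
    apply mul_nonpos_of_nonpos_of_nonneg _ he0.le
    apply HH_neg
    rw [abs_div, abs_div, abs_mul, abs_of_pos hL, abs_of_pos hβ,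
      abs_of_pos (show 0 < 2 * Real.pi by positivity), div_div, lt_div_iff₀ (by positivity)]
    rw [div_lt_iff₀ hL] at h
    linarith

lemma ph_nonneg {β : ℝ} (hβ : 0 ≤ β) (a b α : ℝ) : 0 ≤ ph β a b α :=
  mul_nonneg (ps_nonneg hβ α) (cut_nonneg a b α)

lemma ph_le_ps {β : ℝ} (hβ : 0 ≤ β) (a b α : ℝ) : ph β a b α ≤ ps β α := by
  unfold ph
  exact mul_le_of_le_one_right (ps_nonneg hβ α) (cut_le a b α)

lemma ph_even (β a b α : ℝ) : ph β a b (-α) = ph β a b α := by
  unfold ph ps cut
  rw [abs_neg]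

lemma ph_cont {β a b : ℝ} (hβ : 0 ≤ β) (hab : a < b) : Continuous (ph β a b) := by
  have hK : 0 ≤ 2 * β ^ 2 + β / (b - a) := by
    have : 0 < b - a := by linarith
    positivity
  have : LipschitzWith (2 * β ^ 2 + β / (b - a)).toNNReal (ph β a b) := by
    refine LipschitzWith.of_dist_le_mul fun x y => ?_
    rw [Real.dist_eq, Real.dist_eq, Real.coe_toNNReal _ hK]
    exact ph_lip hβ hab x y
  exact this.continuous

lemma split_int {β a b : ℝ} {J : ℝ → ℝ} (hJc : Continuous J) (hJ0 : ∀ u, 0 ≤ J u) (hβ : 0 < β)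
    (hab : a < b) (hb0 : 0 ≤ b) (hb1 : b ≤ 1) :
    (∫ α in (0 : ℝ)..b, ph β a b α * J α) + ∫ α in (1 : ℝ)..(3 / 2), ps β α * J α ≤
      ∫ α in (0 : ℝ)..(1 / β), ps β α * J α := by
  have hfc : Continuous fun α : ℝ => ps β α * J α := (ps_cont β).mul hJc
  have hf0 : ∀ α, 0 ≤ ps β α * J α := fun α => mul_nonneg (ps_nonneg hβ.le α) (hJ0 α)
  have hi : ∀ x y : ℝ, IntervalIntegrable (fun α : ℝ => ps β α * J α) volume x y :=
    fun x y => hfc.intervalIntegrable x y
  have hβ1 : 0 < 1 / β := by positivity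
  have h1 : ∫ α in (0 : ℝ)..(3 / 2), ps β α * J α ≤ ∫ α in (0 : ℝ)..(1 / β), ps β α * J α := by
    rcases le_total (3 / 2) (1 / β) with h | h
    · refine intervalIntegral.integral_mono_interval le_rfl (by norm_num) h ?_ (hi _ _)
      exact Filter.Eventually.of_forall hf0
    · rw [← intervalIntegral.integral_add_adjacent_intervals (hi 0 (1 / β)) (hi _ (3 / 2))]
      have h2 : ∫ α in (1 / β)..(3 / 2), ps β α * J α = 0 := by
        rw [intervalIntegral.integral_congr (g := fun _ => (0 : ℝ))]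
        · simp
        · intro α hα
          rw [Set.uIcc_of_le h] at hα
          simp only
          rw [ps_zero_of hβ (hα.1.trans (le_abs_self α)), zero_mul]
      rw [h2, add_zero]
  refine le_trans ?_ h1
  rw [← intervalIntegral.integral_add_adjacent_intervals (hi 0 b) (hi b (3 / 2)),
    ← intervalIntegral.integral_add_adjacent_intervals (hi b 1) (hi 1 (3 / 2))]
  have h3 : ∫ α in (0 : ℝ)..b, ph β a b α * J α ≤ ∫ α in (0 : ℝ)..b, ps β α * J α := by
    refine intervalIntegral.integral_mono_on hb0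
      (((ph_cont hβ.le hab).mul hJc).intervalIntegrable _ _) (hi _ _) fun α _ => ?_
    exact mul_le_mul_of_nonneg_right (ph_le_ps hβ.le a b α) (hJ0 α)
  have h4 : 0 ≤ ∫ α in b..1, ps β α * J α :=
    intervalIntegral.integral_nonneg hb1 fun α _ => hf0 α
  linarith

lemma ss_anti {x y : ℝ} (h : x ≤ y) : ss y ≤ ss x := by
  unfold ss
  have hpi := Real.pi_pos
  have h1 : |Real.sin (2 * Real.pi * y) - Real.sin (2 * Real.pi * x)| ≤
      |2 * Real.pi * y - 2 * Real.pi * x| := Real.abs_sin_sub_sin_le _ _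
  have h2 : |2 * Real.pi * y - 2 * Real.pi * x| = 2 * Real.pi * (y - x) := by
    rw [← mul_sub, abs_of_nonneg]
    have : 0 ≤ y - x := by linarith
    positivity
  rw [h2] at h1
  have h3 := (abs_le.1 h1).2
  have h4 : (Real.sin (2 * Real.pi * y) - Real.sin (2 * Real.pi * x)) / (2 * Real.pi) ≤ y - x := by
    rw [div_le_iff₀ (by positivity)]
    linarith
  rw [sub_div] at h4
  linarith

lemma conv_ph {β a b : ℝ} (hβ : 0 < β) (hab : a < b) (hb : 0 < b) :
    Conv fun x => ph β a b (b * x) := by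
  have hba : 0 < b - a := by linarith
  refine ⟨fun α => ph_nonneg hβ.le _ _ _, ?_, ?_, ?_, ?_⟩
  · intro x hx y hy hxy
    rw [Set.mem_Ici] at hx hy
    have hbx : 0 ≤ b * x := by positivity
    have hby : 0 ≤ b * y := by positivity
    have hxy' : b * x ≤ b * y := by gcongr
    simp only [ph]
    have h1 : ps β (b * y) ≤ ps β (b * x) := by
      unfold ps
      rw [abs_of_nonneg hbx, abs_of_nonneg hby]
      apply mul_le_mul_of_nonneg_left _ hβ.le
      apply ss_anti
      apply min_le_min_right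
      gcongr
    have h2 : cut a b (b * y) ≤ cut a b (b * x) := by
      unfold cut
      rw [abs_of_nonneg hbx, abs_of_nonneg hby]
      apply max_le_max le_rfl
      apply min_le_min_left
      gcongr
    exact mul_le_mul h1 h2 (cut_nonneg _ _ _) (ps_nonneg hβ.le _)
  · refine ⟨(2 * β ^ 2 + β / (b - a)) * b, by positivity, fun x y => ?_⟩
    refine (ph_lip hβ.le hab _ _).trans (le_of_eq ?_)
    rw [← mul_sub, abs_mul, abs_of_pos hb]
    ring
  · intro α
    show ph β a b (b * -α) = ph β a b (b * α)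
    rw [mul_neg, ph_even]
  · intro α hα
    simp only [ph]
    rw [cut_zero hab, mul_zero]
    rw [abs_of_nonneg (by nlinarith)]
    nlinarith

lemma PS_ph {β a b A B L : ℝ} (_hβ : 0 < β) (_hb : 0 < b) :
    b * PS (fun x => ph β a b (b * x)) riemannZeta A B (b * L) =
      2 * ∫ α in (0 : ℝ)..b, ph β a b α * JN riemannZeta A B (α * L) := by
  unfold PS
  have h1 := intervalIntegral.mul_integral_comp_mul_left (a := (0 : ℝ)) (b := 1)
    (f := fun α => ph β a b α * JN riemannZeta A B (α * L)) b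
  rw [mul_zero, mul_one] at h1
  rw [← h1]
  have h2 : ∫ α in (0 : ℝ)..1, ph β a b (b * α) * JJ riemannZeta A B (b * L * α) =
      Real.sqrt Real.pi * ∫ α in (0 : ℝ)..1, ph β a b (b * α) * JN riemannZeta A B (b * α * L) := by
    rw [← intervalIntegral.integral_const_mul]
    refine intervalIntegral.integral_congr fun α _ => ?_
    simp only [JN]
    have hpi : Real.sqrt Real.pi ≠ 0 := (Real.sqrt_pos.2 Real.pi_pos).ne'
    rw [show b * L * α = b * α * L by ring]
    field_simp
  have h3 : ∫ α in (0 : ℝ)..1, (fun x => ph β a b (b * x)) α * JJ riemannZeta A B (b * L * α) =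
      ∫ α in (0 : ℝ)..1, ph β a b (b * α) * JJ riemannZeta A B (b * L * α) := rfl
  rw [h3, h2]
  have hpi : Real.sqrt Real.pi ≠ 0 := (Real.sqrt_pos.2 Real.pi_pos).ne'
  set I := ∫ α in (0 : ℝ)..1, ph β a b (b * α) * JN riemannZeta A B (b * α * L) with hI
  have h4 : 2 / Real.sqrt Real.pi * (Real.sqrt Real.pi * I) = 2 * I := by
    rw [← mul_assoc, div_mul_cancel₀ _ hpi]
  rw [h4]
  ring

lemma cR_ph {β a b : ℝ} (hβ : 0 < β) (hab : a < b) (hb : 0 < b) :
    b * cR (fun x => ph β a b (b * x)) b = ph β a b 0 + ∫ α in (-b)..b, |α| * ph β a b α := by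
  unfold cR
  have hc : Continuous fun α : ℝ => |α| * ph β a b α := continuous_abs.mul (ph_cont hβ.le hab)
  have h1 : ∫ α in (-b)..b, |α| * ph β a b α = 2 * ∫ α in (0 : ℝ)..b, α * ph β a b α := by
    rw [int_sym _ hc, ← intervalIntegral.integral_const_mul]
    refine intervalIntegral.integral_congr fun α hα => ?_
    rw [Set.uIcc_of_le hb.le] at hα
    show |α| * ph β a b α + |(-α)| * ph β a b (-α) = _
    rw [abs_neg, ph_even, abs_of_nonneg hα.1]
    ring
  have h2 := intervalIntegral.mul_integral_comp_mul_left (a := (0 : ℝ)) (b := 1)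
    (f := fun α => α * ph β a b α) b
  rw [mul_zero, mul_one] at h2
  have h3 : ∫ α in (0 : ℝ)..1, (b * α) * ph β a b (b * α) =
      b * ∫ α in (0 : ℝ)..1, α * ph β a b (b * α) := by
    rw [← intervalIntegral.integral_const_mul]
    refine intervalIntegral.integral_congr fun α _ => ?_
    show (b * α) * ph β a b (b * α) = b * (α * ph β a b (b * α))
    ring
  rw [h3] at h2
  rw [h1, ← h2]
  show b * (ph β a b (b * 0) / b + 2 * b * ∫ α in (0 : ℝ)..1, α * ph β a b (b * α)) = _
  rw [mul_zero]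
  field_simp

theorem block (hRH : RiemannHypothesis) (β ε : ℝ) (hβ : 0 < β) (hβ1 : β ≤ 1) (hε : 0 < ε) :
    ∃ V0 : ℝ, 10 ≤ V0 ∧ ∀ V : ℝ, V0 ≤ V →
      (VB β - ε) * (V * Real.log V / (2 * Real.pi)) ≤
        QQp β (V + 1) (2 * V - 1) (Real.log V) := by
  have hpi := Real.pi_pos
  -- choose the cutoff
  obtain ⟨a, ha0, ha1, ha2⟩ : ∃ a : ℝ, 0 < a ∧ a < 1 ∧ gg β 1 - ε / 4 < gg β a := by
    have e1 : ∀ᶠ x : ℝ in 𝓝[<] (1 : ℝ), x < 1 := self_mem_nhdsWithin
    have e2 : ∀ᶠ x : ℝ in 𝓝[<] (1 : ℝ), 0 < x :=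
      nhdsWithin_le_nhds (lt_mem_nhds one_pos)
    have e3 : ∀ᶠ x : ℝ in 𝓝[<] (1 : ℝ), gg β 1 - ε / 4 < gg β x :=
      nhdsWithin_le_nhds ((gg_cont β).continuousAt.eventually (lt_mem_nhds (by linarith)))
    obtain ⟨x, ⟨h1, h2⟩, h3⟩ := ((e1.and e2).and e3).exists
    exact ⟨x, h2, h1, h3⟩
  set b : ℝ := (a + 1) / 2 with hb
  have hab : a < b := by rw [hb]; linarith
  have hb1 : b < 1 := by rw [hb]; linarith
  have hb0 : 0 < b := by linarith
  obtain ⟨V1, hV1, hdet⟩ := det_pair hRH (conv_ph hβ hab hb0) b (ε / 4) hb0 hb1 (by positivity)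
  obtain ⟨V2, hV2, hlow⟩ := H332B.low (ε / 4) (by positivity)
  -- size of the main term
  set G : ℝ := |gg β 1| + 1 with hG
  have hG0 : 0 < G := by positivity
  refine ⟨max (max V1 V2) (8 * G / ε + 10), le_trans hV1 ((le_max_left _ _).trans (le_max_left _ _)),
    fun V hV => ?_⟩
  have hVV1 : V1 ≤ V := ((le_max_left _ _).trans (le_max_left _ _)).trans hV
  have hVV2 : V2 ≤ V := ((le_max_right _ _).trans (le_max_left _ _)).trans hV
  have hV3 : 8 * G / ε + 10 ≤ V := (le_max_right _ _).trans hV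
  have hV10 : 10 ≤ V := hV1.trans hVV1
  have hVpos : 0 < V := by linarith
  have hL : 0 < Real.log V := Real.log_pos (by linarith)
  set L := Real.log V with hLdef
  have hA : 1 ≤ V + 1 := by linarith
  set J : ℝ → ℝ := fun α => JN riemannZeta (V + 1) (2 * V - 1) (α * L) with hJ
  have hJc : Continuous J := JN_cont hA L
  have hJ0 : ∀ u, 0 ≤ J u := fun u => JN_nonneg _ _ _ _
  have h1 := QQp_ge' (A := V + 1) (B := 2 * V - 1) hRH hβ hA hL
  have h2 := split_int (a := a) (b := b) hJc hJ0 hβ hab hb0.le hb1.le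
  have h3 := hdet V hVV1
  set M' : ℝ := (2 * V - 1 - (V + 1)) * L / (2 * Real.pi) with hM'
  set XV : ℝ := V * L / (2 * Real.pi) with hXV
  have hXV0 : 0 < XV := by positivity
  have hMX : M' = (1 - 2 / V) * XV := by
    rw [hM', hXV]
    field_simp
    ring
  have hM'0 : 0 ≤ M' := by
    rw [hMX]
    have : 2 / V ≤ 1 := by rw [div_le_one hVpos]; linarith
    have h4 : 0 ≤ 1 - 2 / V := by linarith
    positivity
  have hM'le : M' ≤ XV := by
    rw [hMX]
    have : 0 < 2 / V := by positivity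
    nlinarith
  have hlow1 : (gg β 1 - ε / 2) * M' ≤ 2 * ∫ α in (0 : ℝ)..b, ph β a b α * J α := by
    rw [hJ]
    simp only
    rw [← PS_ph (A := V + 1) (B := 2 * V - 1) (L := L) hβ hb0]
    have h4 := (abs_le.1 h3).1
    have h5 := main_ge hβ hβ1 ha0 hab hb1.le
    rw [← cR_ph hβ hab hb0] at h5
    have h6 : (gg β 1 - ε / 4) * M' ≤ (b * cR (fun x => ph β a b (b * x)) b) * M' :=
      mul_le_mul_of_nonneg_right (by linarith) hM'0
    have h7 : b * (ε / 4 * M') ≤ 1 * (ε / 4 * M') := by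
      apply mul_le_mul_of_nonneg_right hb1.le (by positivity)
    have h8 : b * (-(ε / 4 * M') + M' * cR (fun x => ph β a b (b * x)) b) ≤
        b * PS (fun x => ph β a b (b * x)) riemannZeta (V + 1) (2 * V - 1) (b * L) := by
      apply mul_le_mul_of_nonneg_left _ hb0.le
      linarith
    calc (gg β 1 - ε / 2) * M' = (gg β 1 - ε / 4) * M' - 1 * (ε / 4 * M') := by ring
      _ ≤ (b * cR (fun x => ph β a b (b * x)) b) * M' - b * (ε / 4 * M') := by linarith
      _ = b * (-(ε / 4 * M') + M' * cR (fun x => ph β a b (b * x)) b) := by ring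
      _ ≤ _ := h8
  have hlow2 : (∫ α in (1 : ℝ)..(3 / 2), (3 / 2 - α) * ps β α) * XV - ε / 8 * XV ≤
      ∫ α in (1 : ℝ)..(3 / 2), ps β α * J α := by
    have hc1 : Continuous fun α : ℝ => (3 / 2 - α) * ps β α :=
      (continuous_const.sub continuous_id).mul (ps_cont β)
    have h4 : ∫ α in (1 : ℝ)..(3 / 2), ((3 / 2 - α) * ps β α * XV - ε / 4 * XV) ≤
        ∫ α in (1 : ℝ)..(3 / 2), ps β α * J α := by
      refine intervalIntegral.integral_mono_on (by norm_num)
        (((hc1.mul continuous_const).sub continuous_const).intervalIntegrable _ _)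
        (((ps_cont β).mul hJc).intervalIntegrable _ _) fun α hα => ?_
      have h5 := hlow V (V + 1) (2 * V - 1) (α * L) hVV2
        ⟨by linarith, le_rfl, le_rfl, by linarith⟩ (by nlinarith [hα.1]) (by nlinarith [hα.2])
      have h6 : α * L / L = α := by field_simp
      rw [h6] at h5
      have h7 : (3 / 2 - α - ε / 4) * XV ≤ J α := by
        have hs : 0 < Real.sqrt Real.pi := Real.sqrt_pos.2 hpi
        simp only [hJ, JN]
        rw [le_div_iff₀ hs]
        have h8 : H332B.X V = XV := by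
          unfold H332B.X
          rw [hXV]
        rw [h8] at h5
        have h9 : H332B.Jb (V + 1) (2 * V - 1) (α * L) =
            JJ riemannZeta (V + 1) (2 * V - 1) (α * L) := rfl
        rw [h9] at h5
        linarith
      have h10 := ps_nonneg hβ.le α
      have h11 : ps β α ≤ 1 := (ps_le hβ.le α).trans hβ1
      calc (3 / 2 - α) * ps β α * XV - ε / 4 * XV ≤
          (3 / 2 - α) * ps β α * XV - ps β α * (ε / 4 * XV) := by
            have : ps β α * (ε / 4 * XV) ≤ 1 * (ε / 4 * XV) := by gcongr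
            linarith
        _ = ps β α * ((3 / 2 - α - ε / 4) * XV) := by ring
        _ ≤ ps β α * J α := by gcongr
    have h5 : ∫ α in (1 : ℝ)..(3 / 2), ((3 / 2 - α) * ps β α * XV - ε / 4 * XV) =
        (∫ α in (1 : ℝ)..(3 / 2), (3 / 2 - α) * ps β α) * XV - ε / 8 * XV := by
      have hi1 : IntervalIntegrable (fun α : ℝ => (3 / 2 - α) * ps β α * XV) volume 1 (3 / 2) :=
        (hc1.mul continuous_const).intervalIntegrable _ _
      rw [intervalIntegral.integral_sub hi1 (intervalIntegrable_const),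
        intervalIntegral.integral_mul_const, intervalIntegral.integral_const, smul_eq_mul]
      ring
    rw [h5] at h4
    exact h4
  have h12 : (gg β 1 - ε / 2) * M' ≥ (gg β 1 - ε / 2) * XV - ε / 4 * XV := by
    have h13 : (gg β 1 - ε / 2) * (XV - M') ≤ G * (XV - M') := by
      apply mul_le_mul_of_nonneg_right _ (by linarith)
      have := le_abs_self (gg β 1)
      rw [hG]
      linarith
    have h14 : XV - M' = 2 / V * XV := by rw [hMX]; ring
    have h15 : G * (2 / V * XV) ≤ ε / 4 * XV := by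
      have h16 : G * (2 / V) ≤ ε / 4 := by
        have h17 : 8 * G / ε ≤ V := by linarith
        rw [div_le_iff₀ hε] at h17
        rw [← mul_div_assoc, div_le_iff₀ hVpos]
        linarith
      calc G * (2 / V * XV) = G * (2 / V) * XV := by ring
        _ ≤ _ := by gcongr
    rw [h14] at h13
    have h18 : (gg β 1 - ε / 2) * (2 / V * XV) = (gg β 1 - ε / 2) * XV - (gg β 1 - ε / 2) * M' := by
      rw [hMX]; ring
    rw [h18] at h13
    linarith
  unfold VB
  have h19 : 2 * ((∫ α in (0 : ℝ)..b, ph β a b α * J α) +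
      ∫ α in (1 : ℝ)..(3 / 2), ps β α * J α) ≤ QQp β (V + 1) (2 * V - 1) L := by
    refine le_trans ?_ h1
    linarith
  have h20 : (gg β 1 + 2 * (∫ α in (1 : ℝ)..(3 / 2), (3 / 2 - α) * ps β α) - ε) * XV =
      (gg β 1 - ε / 2) * XV - ε / 4 * XV +
        2 * ((∫ α in (1 : ℝ)..(3 / 2), (3 / 2 - α) * ps β α) * XV - ε / 8 * XV) := by ring
  rw [h20]
  linarith

end H321PC
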