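import Pool.Agent.H345R2.A3.Pairs

/-! The pair sum of a long block, two-sided, under the Riemann hypothesis. -/

open Complex Filter Topology Set MeasureTheory
open scoped BigOperators ComplexConjugate

namespace H321PC

open H370 H370.A2 H370.A3 H370.AS H295SI

lemma ld_ge {X : ℕ} {p : ℕ × ℕ} (hp : p ∈ off X) : 1 / (X : ℝ) ≤ |ld p| := by
  unfold off at hp
  rw [Finset.mem_filter, mem_sq] at hp
  obtain ⟨⟨⟨a1, a2⟩, a3, a4⟩, hne⟩ := hp
  have key : ∀ j k : ℕ, 1 ≤ k → k < j → j ≤ X → 1 / (X : ℝ) ≤ Real.log j - Real.log k := by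
    intro j k hk hkj hjX
    have hk0 : (0 : ℝ) < k := by exact_mod_cast hk
    have hj0 : (0 : ℝ) < j := by exact_mod_cast (by omega : 0 < j)
    have hX0 : (0 : ℝ) < X := by exact_mod_cast (by omega : 0 < X)
    rw [← Real.log_div hj0.ne' hk0.ne']
    have h1 := Real.one_sub_inv_le_log_of_pos (show (0 : ℝ) < j / k by positivity)
    refine le_trans ?_ h1
    rw [inv_div]
    have h2 : (k : ℝ) + 1 ≤ j := by exact_mod_cast hkj
    have h3 : (j : ℝ) ≤ X := by exact_mod_cast hjX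
    have h4 : 1 - (k : ℝ) / j = (j - k) / j := by field_simp
    rw [h4, div_le_div_iff₀ hX0 hj0]
    nlinarith
  unfold ld
  rcases lt_or_gt_of_ne hne with h | h
  · rw [abs_sub_comm]
    exact (key p.2 p.1 a1 h a4).trans (le_abs_self _)
  · exact (key p.1 p.2 a3 h a2).trans (le_abs_self _)

lemma bb_sum {a : ℕ → ℂ} (ha : ∀ n, ‖a n‖ ≤ ArithmeticFunction.vonMangoldt n) (u : ℝ) (X : ℕ) :
    (∑ n ∈ Finset.Icc 1 X, ‖bb a u n‖) ^ 2 ≤ (X : ℝ) ^ 4 := by
  have h1 : ∑ n ∈ Finset.Icc 1 X, ‖bb a u n‖ ≤ (X : ℝ) * X := by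
    calc ∑ n ∈ Finset.Icc 1 X, ‖bb a u n‖ ≤ ∑ n ∈ Finset.Icc 1 X, (X : ℝ) := by
          refine Finset.sum_le_sum fun n hn => ?_
          refine (bb_le ha u X n hn).trans ?_
          have hn1 : (1 : ℝ) ≤ n := by exact_mod_cast (Finset.mem_Icc.1 hn).1
          have hX1 : (1 : ℝ) ≤ X := by
            have : (n : ℝ) ≤ X := by exact_mod_cast (Finset.mem_Icc.1 hn).2
            linarith
          have h2 : 1 ≤ Real.sqrt n := Real.one_le_sqrt.2 hn1
          rw [div_le_iff₀ (by linarith)]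
          have h3 : Real.log X ≤ X := by
            have := Real.log_le_sub_one_of_pos (x := (X : ℝ)) (by linarith)
            linarith
          nlinarith
      _ = (X : ℝ) * X := by rw [Finset.sum_const, Nat.card_Icc, nsmul_eq_mul]; simp
  calc (∑ n ∈ Finset.Icc 1 X, ‖bb a u n‖) ^ 2 ≤ ((X : ℝ) * X) ^ 2 := by
        have : 0 ≤ ∑ n ∈ Finset.Icc 1 X, ‖bb a u n‖ := Finset.sum_nonneg fun _ _ => norm_nonneg _
        gcongr
    _ = (X : ℝ) ^ 4 := by ring

lemma EE_bound {a : ℕ → ℂ} (ha : ∀ n, ‖a n‖ ≤ ArithmeticFunction.vonMangoldt n) (u σ x : ℝ)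
    (X : ℕ) : ‖EE (bb a u) X σ x‖ ≤ (X : ℝ) ^ 4 * Real.exp (-(σ ^ 2 / (X : ℝ) ^ 2) / 2) := by
  classical
  unfold EE
  set b := bb a u with hb
  set E := Real.exp (-(σ ^ 2 / (X : ℝ) ^ 2) / 2) with hE
  have hE0 : 0 < E := Real.exp_pos _
  calc ‖∑ p ∈ off X, cf b σ p * cexp (-(I * x * ld p))‖ ≤
      ∑ p ∈ off X, ‖b p.1‖ * ‖b p.2‖ * E := by
        refine (norm_sum_le _ _).trans (Finset.sum_le_sum fun p hp => ?_)
        have h1 : ‖cexp (-(I * x * ld p))‖ = 1 := by
          have e : -(I * x * ld p) = ((-(x * ld p) : ℝ) : ℂ) * I := by push_cast; ring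
          rw [e, Complex.norm_exp_ofReal_mul_I]
        rw [norm_mul, h1, mul_one]
        unfold cf
        rw [norm_mul, norm_mul, RCLike.norm_conj, Complex.norm_real,
          Real.norm_of_nonneg (Real.exp_pos _).le]
        have h2 : Real.exp (-(σ ^ 2 * ld p ^ 2) / 2) ≤ E := by
          rw [hE]
          apply Real.exp_le_exp.2
          have h3 := ld_ge hp
          have h4 : (1 / (X : ℝ)) ^ 2 ≤ ld p ^ 2 := by
            rw [← sq_abs (ld p)]
            gcongr
          have h5 : σ ^ 2 / (X : ℝ) ^ 2 ≤ σ ^ 2 * ld p ^ 2 := by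
            calc σ ^ 2 / (X : ℝ) ^ 2 = σ ^ 2 * (1 / (X : ℝ)) ^ 2 := by
                  rw [div_pow, one_pow]; ring
              _ ≤ _ := by gcongr
          linarith
        gcongr
    _ ≤ ∑ p ∈ H370.AS.sq X, ‖b p.1‖ * ‖b p.2‖ * E := by
        refine Finset.sum_le_sum_of_subset_of_nonneg ?_ fun p _ _ => by positivity
        unfold off
        exact Finset.filter_subset _ _
    _ = (∑ n ∈ Finset.Icc 1 X, ‖b n‖) ^ 2 * E := by
        unfold H370.AS.sq
        rw [← Finset.sum_mul, Finset.sum_product, _root_.sq, Finset.sum_mul_sum]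
    _ ≤ _ := by
        have := bb_sum ha u X
        gcongr

theorem det_pair (hRH : RiemannHypothesis) {R : ℝ → ℝ} (hR : Conv R) (μ η : ℝ) (hμ : 0 < μ)
    (hμ1 : μ < 1) (hη : 0 < η) :
    ∃ T0 : ℝ, 10 ≤ T0 ∧ ∀ T : ℝ, T0 ≤ T →
      |PS R riemannZeta (T + 1) (2 * T - 1) (μ * Real.log T) -
        ((2 * T - 1 - (T + 1)) * Real.log T / (2 * Real.pi)) * cR R μ| ≤
      η * ((2 * T - 1 - (T + 1)) * Real.log T / (2 * Real.pi)) := by
  set κ : ℝ := (1 - μ) / 8 with hκ
  have hκ0 : 0 < κ := by rw [hκ]; linarith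
  have hκ1 : μ = 1 - 8 * κ := by rw [hκ]; ring
  obtain ⟨θ, hθ0, hθ1, T2, hT2, hm⟩ := pair_two hR good_zeta (a := lamC) lamC_norm
    (fun s hs _ => ld_zeta s hs) (le_refl (0 : ℝ)) (1 / 2) μ (μ + κ) κ η (by norm_num)
    (by norm_num) hμ (by linarith) (by linarith) (by norm_num) hκ0 hη
  have hR0 : 0 ≤ R 0 := hR.nonneg 0
  have hc0 : 0 < (θ / 4) ^ 2 / 16 := by positivity
  -- eventual facts
  have ev3 : ∀ᶠ T : ℝ in atTop,
      Real.sqrt 2 * Real.exp (-((θ / 4) ^ 2 / 16 * T ^ (2 * κ))) ≤ θ / (1 + θ) := by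
    have h1 : Tendsto (fun T : ℝ => Real.sqrt 2 * Real.exp (-((θ / 4) ^ 2 / 16 * T ^ (2 * κ))))
        atTop (𝓝 (Real.sqrt 2 * 0)) := by
      apply Tendsto.const_mul
      apply Real.tendsto_exp_atBot.comp
      have h2 : Tendsto (fun T : ℝ => (θ / 4) ^ 2 / 16 * T ^ (2 * κ)) atTop atTop :=
        (tendsto_rpow_atTop (by positivity)).const_mul_atTop (by positivity)
      exact tendsto_neg_atTop_atBot.comp h2
    rw [mul_zero] at h1
    exact h1.eventually (ge_mem_nhds (by positivity))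
  have ev6 : ∀ (c d e : ℝ), 0 < c → 0 < d → 0 < e → ∀ᶠ T : ℝ in atTop,
      d * Real.log T ≤ c * T ^ e := by
    intro c d e hc hd he
    have h1 := (isLittleO_log_rpow_atTop he).bound (show (0 : ℝ) < c / d by positivity)
    filter_upwards [h1, eventually_ge_atTop 1] with T hT hT1
    have hl : 0 ≤ Real.log T := Real.log_nonneg hT1
    rw [Real.norm_of_nonneg hl, Real.norm_of_nonneg (by positivity)] at hT
    calc d * Real.log T ≤ d * (c / d * T ^ e) := by gcongr
      _ = _ := by field_simp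
  have ev7 : ∀ᶠ T : ℝ in atTop, 2 * (R 0 + 1) ≤ T :=
    eventually_ge_atTop _
  have ev8 : ∀ᶠ T : ℝ in atTop, (4 : ℝ) ≤ T ^ (1 / 2 : ℝ) :=
    (tendsto_rpow_atTop (by norm_num)).eventually_ge_atTop _
  obtain ⟨T4, hT4⟩ := (((((ev3.and (ev6 ((θ / 4) ^ 2 / 16) 6 (2 * κ) hc0 (by norm_num)
    (by positivity))).and ev7).and (ev6 1 9 (10 * κ) one_pos (by norm_num)
    (by positivity)))).and ev8).exists_forall_of_atTop
  refine ⟨max 100 (max T2 T4), le_trans (by norm_num) (le_max_left _ _), fun T hT => ?_⟩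
  have hT100 : 100 ≤ T := (le_max_left _ _).trans hT
  have hTT2 : T2 ≤ T := ((le_max_left _ _).trans (le_max_right _ _)).trans hT
  obtain ⟨⟨⟨⟨e3, e6⟩, e7⟩, e9⟩, e8⟩ := hT4 T (((le_max_right _ _).trans (le_max_right _ _)).trans hT)
  have hTpos : 0 < T := by linarith
  have hlogT : 0 < Real.log T := Real.log_pos (by linarith)
  set H : ℝ := 2 * T - 1 - (T + 1) with hH
  have hH2 : H = T - 2 := by rw [hH]; ring
  have hHT : T / 2 ≤ H := by rw [hH2]; linarith
  have hHpos : 0 < H := by linarith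
  set X : ℕ := ⌊T ^ (μ + 2 * κ)⌋₊ with hX
  set σ : ℝ := T ^ (1 - κ) with hσ
  have hσ0 : 0 < σ := Real.rpow_pos_of_pos hTpos _
  set w : ℝ := θ / 4 * H with hw
  have hw0 : 0 ≤ w := by positivity
  have hexpo : -w ^ 2 / (4 * σ ^ 2) ≤ -((θ / 4) ^ 2 / 16 * T ^ (2 * κ)) := by
    have h1 : σ ^ 2 * T ^ (2 * κ) = T ^ 2 := by
      rw [hσ, ← Real.rpow_natCast, ← Real.rpow_mul hTpos.le, ← Real.rpow_add hTpos,
        ← Real.rpow_natCast]
      congr 1
      push_cast; ring
    rw [neg_div, neg_le_neg_iff, le_div_iff₀ (by positivity)]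
    have h2 : (θ / 4) ^ 2 / 16 * T ^ (2 * κ) * (4 * σ ^ 2) =
        (θ / 4) ^ 2 / 4 * (σ ^ 2 * T ^ (2 * κ)) := by ring
    rw [h2, h1, hw]
    have h3 : (T / 2) ^ 2 ≤ H ^ 2 := by gcongr
    have h4 : 0 < (θ / 4) ^ 2 := by positivity
    nlinarith
  have hXle : (X : ℝ) ≤ T ^ (μ + 2 * κ) := Nat.floor_le (by positivity)
  have hmass : Real.sqrt 2 * Real.exp (-w ^ 2 / (4 * σ ^ 2)) ≤ θ / (1 + θ) := by
    refine le_trans ?_ e3
    gcongr
  have hmass2 : (X : ℝ) ^ 4 * (Real.sqrt 2 * Real.exp (-w ^ 2 / (4 * σ ^ 2))) ≤ 1 := by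
    have h2 : (X : ℝ) ^ 4 ≤ Real.exp (4 * (μ + 2 * κ) * Real.log T) := by
      calc (X : ℝ) ^ 4 ≤ (T ^ (μ + 2 * κ)) ^ 4 := by gcongr
        _ = Real.exp (4 * (μ + 2 * κ) * Real.log T) := by
          rw [Real.rpow_def_of_pos hTpos, ← Real.exp_nat_mul]
          congr 1
          push_cast; ring
    have h3 : Real.sqrt 2 ≤ Real.exp (Real.log T) := by
      rw [Real.exp_log hTpos]
      have : Real.sqrt 2 ≤ 2 := by
        rw [Real.sqrt_le_left (by norm_num)]; norm_num
      linarith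
    calc (X : ℝ) ^ 4 * (Real.sqrt 2 * Real.exp (-w ^ 2 / (4 * σ ^ 2))) ≤
        Real.exp (4 * (μ + 2 * κ) * Real.log T) * (Real.exp (Real.log T) *
          Real.exp (-((θ / 4) ^ 2 / 16 * T ^ (2 * κ)))) := by gcongr
      _ = Real.exp (4 * (μ + 2 * κ) * Real.log T + (Real.log T +
          -((θ / 4) ^ 2 / 16 * T ^ (2 * κ)))) := by rw [Real.exp_add, Real.exp_add]
      _ ≤ 1 := by
        rw [Real.exp_le_one_iff]
        have h5 : 4 * (μ + 2 * κ) * Real.log T ≤ 4 * 1 * Real.log T := by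
          gcongr
          linarith
        linarith
  have h := hm T hTT2 (Real.log T) (by simp) (T + 1) (2 * T - 1) le_rfl le_rfl ?_ ?_ σ w X hσ0 hw0
    le_rfl hmass hmass2 ?_ ?_
  · exact h.2
  · -- T ^ (1/2) ≤ H
    have h1 : T ^ (1 / 2 : ℝ) * T ^ (1 / 2 : ℝ) = T := by
      rw [← Real.rpow_add hTpos]; norm_num
    have h2 : T ^ (1 / 2 : ℝ) ≤ T / 4 := by nlinarith [Real.rpow_pos_of_pos hTpos (1 / 2)]
    show T ^ (1 / 2 : ℝ) ≤ H
    linarith
  · intro s hs _
    have : s.re = 1 / 2 := by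
      obtain ⟨h1, h2, h3, h4, h5⟩ := hs
      have hpos : 0 < s.im := by linarith
      refine hRH s h5 ?_ ?_
      · rintro ⟨n, hn⟩
        rw [hn] at hpos
        simp at hpos
      · intro h
        rw [h] at hpos
        simp at hpos
    rw [this]; norm_num
  · have h1 : T ^ (μ + 2 * κ) ≤ (X : ℝ) + 1 := (Nat.lt_floor_add_one _).le
    have h2 : (μ + 2 * κ) * Real.log T ≤ Real.log (X + 1) := by
      rw [← Real.log_rpow hTpos]
      exact Real.log_le_log (Real.rpow_pos_of_pos hTpos _) h1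
    refine le_trans (le_of_eq ?_) h2
    ring
  · -- the off-diagonal terms
    have ha : ∀ n, ‖lamC n‖ ≤ ArithmeticFunction.vonMangoldt n := fun n => (lamC_norm n).le
    set M : ℝ := (X : ℝ) ^ 4 * Real.exp (-(σ ^ 2 / (X : ℝ) ^ 2) / 2) with hM
    have hM0 : 0 ≤ M := by positivity
    have hQE : ∀ x : ℝ, QE R lamC (μ * Real.log T) X σ x ≤ R 0 * M ^ 2 := by
      intro x
      unfold QE
      have h1 : ∫ α in (0 : ℝ)..1, R α * ‖EE (bb lamC (μ * Real.log T * α)) X σ x‖ ^ 2 ≤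
          ∫ α in (0 : ℝ)..1, R 0 * M ^ 2 := by
        refine intervalIntegral.integral_mono_on zero_le_one ?_
          (intervalIntegrable_const) fun α hα => ?_
        · exact Continuous.intervalIntegrable
            ((QE_aux hR lamC (μ * Real.log T) X σ).comp (continuous_id.prodMk continuous_const)) _ _
        · have h2 := EE_bound ha (μ * Real.log T * α) σ x X
          have h3 : R α ≤ R 0 := H613SI.conv_le hR α hα.1
          have h4 : 0 ≤ R α := hR.nonneg α
          have h5 : ‖EE (bb lamC (μ * Real.log T * α)) X σ x‖ ^ 2 ≤ M ^ 2 := by gcongr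
          gcongr
      refine h1.trans ?_
      rw [intervalIntegral.integral_const]
      simp
    have hX1 : (1 : ℝ) ≤ T ^ (μ + 2 * κ) := Real.one_le_rpow (by linarith) (by linarith)
    have hX0 : 0 < X := Nat.floor_pos.2 hX1
    have hX0' : (0 : ℝ) < X := by exact_mod_cast hX0
    have hE : T ^ (10 * κ) ≤ σ ^ 2 / (X : ℝ) ^ 2 := by
      rw [le_div_iff₀ (by positivity)]
      calc T ^ (10 * κ) * (X : ℝ) ^ 2 ≤ T ^ (10 * κ) * (T ^ (μ + 2 * κ)) ^ 2 := by gcongr
        _ = σ ^ 2 := by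
          rw [hσ, ← Real.rpow_natCast, ← Real.rpow_natCast, ← Real.rpow_mul hTpos.le,
            ← Real.rpow_mul hTpos.le, ← Real.rpow_add hTpos]
          congr 1
          push_cast
          rw [hκ1]
          ring
    have hM2 : 2 * (R 0 + 1) * M ^ 2 ≤ 1 := by
      have h1 : (X : ℝ) ^ 8 ≤ Real.exp (8 * (μ + 2 * κ) * Real.log T) := by
        calc (X : ℝ) ^ 8 ≤ (T ^ (μ + 2 * κ)) ^ 8 := by gcongr
          _ = Real.exp (8 * (μ + 2 * κ) * Real.log T) := by
            rw [Real.rpow_def_of_pos hTpos, ← Real.exp_nat_mul]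
            congr 1
            push_cast; ring
      have h2 : M ^ 2 = (X : ℝ) ^ 8 * Real.exp (-(σ ^ 2 / (X : ℝ) ^ 2)) := by
        rw [hM, mul_pow, ← Real.exp_nat_mul]
        congr 1
        · ring
        · congr 1
          push_cast; ring
      have h3 : 2 * (R 0 + 1) ≤ Real.exp (Real.log T) := by
        rw [Real.exp_log hTpos]; exact e7
      calc 2 * (R 0 + 1) * M ^ 2 ≤ Real.exp (Real.log T) *
          (Real.exp (8 * (μ + 2 * κ) * Real.log T) * Real.exp (-(T ^ (10 * κ)))) := by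
            rw [h2]
            gcongr
        _ = Real.exp (Real.log T + (8 * (μ + 2 * κ) * Real.log T + -(T ^ (10 * κ)))) := by
            rw [Real.exp_add, Real.exp_add]
        _ ≤ 1 := by
            rw [Real.exp_le_one_iff]
            have h5 : 8 * (μ + 2 * κ) * Real.log T ≤ 8 * 1 * Real.log T := by
              gcongr
              linarith
            linarith
    have hint : ∫ x in (T + 1 - w)..(2 * T - 1 + w), QE R lamC (μ * Real.log T) X σ x ≤
        ∫ x in (T + 1 - w)..(2 * T - 1 + w), R 0 * M ^ 2 := by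
      refine intervalIntegral.integral_mono_on (by linarith) ?_ (intervalIntegrable_const)
        fun x _ => hQE x
      exact (QE_cont hR _ _ _ _).intervalIntegrable _ _
    refine hint.trans ?_
    rw [intervalIntegral.integral_const, smul_eq_mul]
    have h6 : 2 * T - 1 + w - (T + 1 - w) = H + 2 * w := by rw [hH]; ring
    rw [h6]
    have h7 : 2 * w ≤ H := by rw [hw]; nlinarith
    have h8 : 0 ≤ R 0 * M ^ 2 := by positivity
    have h9 : 2 * (R 0 * M ^ 2) ≤ 1 := by nlinarith [sq_nonneg M]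
    calc (H + 2 * w) * (R 0 * M ^ 2) ≤ (2 * H) * (R 0 * M ^ 2) := by
          gcongr
          linarith
      _ = H * (2 * (R 0 * M ^ 2)) := by ring
      _ ≤ H * 1 := by gcongr
      _ = H := mul_one _

end H321PC
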