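import Pool.Agent.H321R3.PC.Block

/-! From long blocks to the height `T`. -/

open Complex Filter Topology Set MeasureTheory
open scoped BigOperators ComplexConjugate

namespace H321PC

open H370 H370.A2 H370.A3 H370.AS H295SI

lemma gg_cont_left : Continuous fun β : ℝ => gg β 1 := by
  unfold gg
  have h1 : Continuous (Function.uncurry fun β α : ℝ => α * ss (β * α)) := by
    have : Continuous fun p : ℝ × ℝ => p.2 * ss (p.1 * p.2) :=
      continuous_snd.mul (ss_cont.comp (continuous_fst.mul continuous_snd))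
    exact this
  have h2 := intervalIntegral.continuous_parametric_intervalIntegral_of_continuous'
    (μ := volume) h1 0 1
  exact continuous_id.add ((continuous_const.mul continuous_id).mul h2)

lemma VB_cont : Continuous VB := by
  unfold VB
  have h1 : Continuous (Function.uncurry fun β α : ℝ => (3 / 2 - α) * ps β α) := by
    have h2 : Continuous fun p : ℝ × ℝ => ps p.1 p.2 := by
      unfold ps
      exact continuous_fst.mul (ss_cont.comp
        ((continuous_fst.mul (continuous_abs.comp continuous_snd)).min continuous_const))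
    have : Continuous fun p : ℝ × ℝ => (3 / 2 - p.2) * ps p.1 p.2 :=
      (continuous_const.sub continuous_snd).mul h2
    exact this
  have h2 := intervalIntegral.continuous_parametric_intervalIntegral_of_continuous'
    (μ := volume) h1 1 (3 / 2)
  exact gg_cont_left.add (continuous_const.mul h2)

lemma N2_nonneg (T w : ℝ) : 0 ≤ H332B.N2 T w := by
  classical
  unfold H332B.N2
  have hz : ∀ z, 0 ≤ H343.ZSide.mz z := fun z => Nat.cast_nonneg _
  refine Finset.sum_nonneg fun s _ => Finset.sum_nonneg fun s' _ => ?_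
  split_ifs
  · exact mul_nonneg (hz s) (hz s')
  · exact le_rfl

lemma N2_ge (J : ℕ) (T w β : ℝ) (hT : 2 ^ J ≤ T)
    (hW : ∀ k < J, 2 * Real.pi * β / Real.log (T / 2 ^ (k + 1)) ≤ w) :
    ∑ k ∈ Finset.range J, QQp β (T / 2 ^ (k + 1) + 1) (2 * (T / 2 ^ (k + 1)) - 1)
      (Real.log (T / 2 ^ (k + 1))) ≤ H332B.N2 T w := by
  classical
  set B : ℕ → Finset ℂ := fun k => Zf riemannZeta (T / 2 ^ (k + 1) + 1)
    (2 * (T / 2 ^ (k + 1)) - 1) with hB
  set g : ℂ × ℂ → ℝ := fun p => if |p.1.im - p.2.im| ≤ w then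
    H343.ZSide.mz p.1 * H343.ZSide.mz p.2 else 0 with hg
  have hz : ∀ z, 0 ≤ H343.ZSide.mz z := fun z => Nat.cast_nonneg _
  have hg0 : ∀ p, 0 ≤ g p := by
    intro p
    simp only [hg]
    split_ifs
    · exact mul_nonneg (hz _) (hz _)
    · exact le_rfl
  have hTpos : 0 < T := lt_of_lt_of_le (by positivity) hT
  have hU : ∀ k : ℕ, 1 ≤ T / 2 ^ (k + 1) + 1 := fun k => by
    have : 0 < T / 2 ^ (k + 1) := by positivity
    linarith
  have hmem : ∀ k s, s ∈ B k ↔ s ∈ zset riemannZeta (T / 2 ^ (k + 1) + 1)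
      (2 * (T / 2 ^ (k + 1)) - 1) := fun k s => mem_Zf good_zeta (hU k)
  have h1 : ∀ k ∈ Finset.range J, QQp β (T / 2 ^ (k + 1) + 1) (2 * (T / 2 ^ (k + 1)) - 1)
      (Real.log (T / 2 ^ (k + 1))) ≤ ∑ p ∈ B k ×ˢ B k, g p := by
    intro k hk
    unfold QQp
    rw [Finset.sum_product]
    refine Finset.sum_le_sum fun s _ => Finset.sum_le_sum fun s' _ => ?_
    have hwk := hW k (Finset.mem_range.1 hk)
    simp only [hg]
    by_cases h : |s.im - s'.im| ≤ 2 * Real.pi * β / Real.log (T / 2 ^ (k + 1))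
    · rw [if_pos h, if_pos (h.trans hwk), mul_one]
      exact le_of_eq rfl
    · rw [if_neg h, mul_zero]
      exact hg0 (s, s')
  refine (Finset.sum_le_sum h1).trans ?_
  have hdisj : Set.PairwiseDisjoint (↑(Finset.range J)) (fun k => B k ×ˢ B k) := by
    have key : ∀ j k : ℕ, j < k → Disjoint (B j) (B k) := by
      intro j k hjk
      rw [Finset.disjoint_left]
      intro s hs1 hs2
      rw [hmem] at hs1 hs2
      obtain ⟨-, -, h3, -, -⟩ := hs1
      obtain ⟨-, -, -, h4, -⟩ := hs2
      have h5 : 2 * (T / 2 ^ (k + 1)) ≤ T / 2 ^ (j + 1) := by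
        have h6 : 2 * (T / 2 ^ (k + 1)) = T / 2 ^ k := by rw [pow_succ]; field_simp
        rw [h6]
        apply div_le_div_of_nonneg_left hTpos.le (by positivity)
        exact pow_le_pow_right₀ (by norm_num) hjk
      linarith
    intro j _ k _ hjk
    simp only [Function.onFun]
    rw [Finset.disjoint_product]
    left
    rcases lt_or_gt_of_ne hjk with h | h
    · exact key j k h
    · exact (key k j h).symm
  rw [← Finset.sum_biUnion hdisj]
  have hN : H332B.N2 T w = ∑ p ∈ H343.ZSide.Z0 T ×ˢ H343.ZSide.Z0 T, g p := by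
    unfold H332B.N2
    rw [Finset.sum_product]
  rw [hN]
  refine Finset.sum_le_sum_of_subset_of_nonneg ?_ fun p _ _ => hg0 p
  intro p hp
  rw [Finset.mem_biUnion] at hp
  obtain ⟨k, hk, hp⟩ := hp
  rw [Finset.mem_product] at hp ⊢
  have hsub : ∀ s, s ∈ B k → s ∈ H343.ZSide.Z0 T := by
    intro s hs
    rw [hmem] at hs
    obtain ⟨h1, h2, h3, h4, h5⟩ := hs
    unfold H343.ZSide.Z0
    rw [Set.Finite.mem_toFinset]
    have h6 : 0 < T / 2 ^ (k + 1) := by positivity
    have h7 : 2 * (T / 2 ^ (k + 1)) ≤ T := by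
      have h8 : 2 * (T / 2 ^ (k + 1)) = T / 2 ^ k := by rw [pow_succ]; field_simp
      rw [h8]
      exact div_le_self hTpos.le (one_le_pow₀ (by norm_num))
    exact ⟨h1, h2, by linarith, by linarith, h5⟩
  exact ⟨hsub _ hp.1, hsub _ hp.2⟩

theorem main (hRH : RiemannHypothesis) (β ε : ℝ) (hβ : 0 < β) (hβ1 : β ≤ 1) (hε : 0 < ε) :
    ∃ T0 : ℝ, 2 ≤ T0 ∧ ∀ T : ℝ, T0 ≤ T →
      (VB β - ε) * (T / (2 * Real.pi) * Real.log T) ≤
        H332B.N2 T (2 * Real.pi * β / Real.log T) := by
  have hpi := Real.pi_pos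
  rcases le_or_gt (VB β - ε) 0 with hv | hv
  · refine ⟨2, le_rfl, fun T hT => ?_⟩
    have hL : 0 < Real.log T := Real.log_pos (by linarith)
    have hX : 0 ≤ T / (2 * Real.pi) * Real.log T := by
      have : 0 < T := by linarith
      positivity
    exact (mul_nonpos_of_nonpos_of_nonneg hv hX).trans (N2_nonneg _ _)
  · set c : ℝ := VB β - ε / 2 with hc
    have hc0 : 0 < c := by linarith
    obtain ⟨β', hβ'0, hβ'1, hβ'2⟩ : ∃ β' : ℝ, 0 < β' ∧ β' < β ∧ VB β - ε / 4 < VB β' := by
      have e1 : ∀ᶠ x : ℝ in 𝓝[<] β, x < β := self_mem_nhdsWithin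
      have e2 : ∀ᶠ x : ℝ in 𝓝[<] β, 0 < x := nhdsWithin_le_nhds (lt_mem_nhds hβ)
      have e3 : ∀ᶠ x : ℝ in 𝓝[<] β, VB β - ε / 4 < VB x :=
        nhdsWithin_le_nhds (VB_cont.continuousAt.eventually (lt_mem_nhds (by linarith)))
      obtain ⟨x, ⟨h1, h2⟩, h3⟩ := ((e1.and e2).and e3).exists
      exact ⟨x, h2, h1, h3⟩
    obtain ⟨V0, hV0, hblk⟩ := block hRH β' (ε / 4) hβ'0 (by linarith) (by positivity)
    obtain ⟨J, hJ⟩ : ∃ J : ℕ, c * (1 / 2 : ℝ) ^ J < ε / 4 := by
      obtain ⟨J, hJ⟩ := exists_pow_lt_of_lt_one (show (0 : ℝ) < ε / 4 / c by positivity)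
        (show (1 / 2 : ℝ) < 1 by norm_num)
      refine ⟨J, ?_⟩
      rw [lt_div_iff₀ hc0] at hJ
      linarith
    set K : ℝ := max (4 * c * (J * Real.log 2) / ε) (β * (J * Real.log 2) / (β - β')) with hK
    refine ⟨max 2 (max (2 ^ J * V0) (Real.exp K)), le_max_left _ _, fun T hT => ?_⟩
    have hT2 : 2 ≤ T := (le_max_left _ _).trans hT
    have hTV : 2 ^ J * V0 ≤ T := ((le_max_left _ _).trans (le_max_right _ _)).trans hT
    have hTK : Real.exp K ≤ T := ((le_max_right _ _).trans (le_max_right _ _)).trans hT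
    have hTpos : 0 < T := by linarith
    have hL : 0 < Real.log T := Real.log_pos (by linarith)
    have hKL : K ≤ Real.log T := by rw [Real.le_log_iff_exp_le hTpos]; exact hTK
    have hK1 : c * (J * Real.log 2) ≤ ε / 4 * Real.log T := by
      have h1 := (le_max_left _ _).trans hKL
      rw [div_le_iff₀ hε] at h1
      linarith
    have hββ : 0 < β - β' := by linarith
    have hK2 : β * (J * Real.log 2) ≤ (β - β') * Real.log T := by
      have h1 := (le_max_right _ _).trans hKL
      rw [div_le_iff₀ hββ] at h1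
      linarith
    have hl2 : 0 < Real.log 2 := Real.log_pos (by norm_num)
    have h2J : (2 : ℝ) ^ J ≤ T := by
      have : (2 : ℝ) ^ J * 1 ≤ 2 ^ J * V0 := by gcongr; linarith
      linarith
    have hVk : ∀ k < J, V0 ≤ T / 2 ^ (k + 1) := by
      intro k hk
      rw [le_div_iff₀ (by positivity)]
      calc V0 * 2 ^ (k + 1) ≤ V0 * 2 ^ J := by
            gcongr
            · norm_num
            · exact hk
        _ = 2 ^ J * V0 := by ring
        _ ≤ T := hTV
    have hlogk : ∀ k < J, Real.log T - J * Real.log 2 ≤ Real.log (T / 2 ^ (k + 1)) := by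
      intro k hk
      rw [Real.log_div hTpos.ne' (by positivity), Real.log_pow]
      have : ((k + 1 : ℕ) : ℝ) ≤ J := by exact_mod_cast hk
      have h3 : ((k + 1 : ℕ) : ℝ) * Real.log 2 ≤ J * Real.log 2 := by gcongr
      linarith
    have hlogpos : ∀ k < J, 0 < Real.log (T / 2 ^ (k + 1)) := by
      intro k hk
      apply Real.log_pos
      have := hVk k hk
      linarith
    have h1 := N2_ge J T (2 * Real.pi * β / Real.log T) β' h2J (by
      intro k hk
      rw [div_le_div_iff₀ (hlogpos k hk) hL]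
      have h3 := hlogk k hk
      have h4 : β * (Real.log T - J * Real.log 2) ≤ β * Real.log (T / 2 ^ (k + 1)) := by gcongr
      have h5 : β' * Real.log T ≤ β * Real.log (T / 2 ^ (k + 1)) := by linarith
      calc 2 * Real.pi * β' * Real.log T = 2 * Real.pi * (β' * Real.log T) := by ring
        _ ≤ 2 * Real.pi * (β * Real.log (T / 2 ^ (k + 1))) := by gcongr
        _ = _ := by ring)
    refine le_trans ?_ h1
    have h2 : ∀ k ∈ Finset.range J, c * (T / 2 ^ (k + 1) *
        (Real.log T - J * Real.log 2) / (2 * Real.pi)) ≤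
        QQp β' (T / 2 ^ (k + 1) + 1) (2 * (T / 2 ^ (k + 1)) - 1)
          (Real.log (T / 2 ^ (k + 1))) := by
      intro k hk
      rw [Finset.mem_range] at hk
      refine le_trans ?_ (hblk _ (hVk k hk))
      have h3 := hlogk k hk
      have h4 := hlogpos k hk
      have h5 : c ≤ VB β' - ε / 4 := by linarith
      have h6 : 0 < T / 2 ^ (k + 1) := by positivity
      calc c * (T / 2 ^ (k + 1) * (Real.log T - J * Real.log 2) / (2 * Real.pi)) ≤
          c * (T / 2 ^ (k + 1) * Real.log (T / 2 ^ (k + 1)) / (2 * Real.pi)) := by gcongr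
        _ ≤ _ := by
          apply mul_le_mul_of_nonneg_right h5
          positivity
    refine le_trans ?_ (Finset.sum_le_sum h2)
    have h3 : ∑ k ∈ Finset.range J, c * (T / 2 ^ (k + 1) *
        (Real.log T - J * Real.log 2) / (2 * Real.pi)) =
        c * (T * (Real.log T - J * Real.log 2) / (2 * Real.pi)) * (1 - (1 / 2) ^ J) := by
      have h4 : ∀ n : ℕ, ∑ k ∈ Finset.range n, (1 / 2 : ℝ) ^ (k + 1) = 1 - (1 / 2) ^ n := by
        intro n
        induction n with
        | zero => simp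
        | succ n ih => rw [Finset.sum_range_succ, ih, pow_succ]; ring
      rw [← h4, Finset.mul_sum]
      refine Finset.sum_congr rfl fun k _ => ?_
      rw [one_div, inv_pow]
      field_simp
    rw [h3]
    have h5 : (1 / 2 : ℝ) ^ J ≤ 1 := pow_le_one₀ (by norm_num) (by norm_num)
    have h6 : 0 ≤ (1 / 2 : ℝ) ^ J := by positivity
    have h7 : (c - ε / 2) * Real.log T ≤
        c * (Real.log T - J * Real.log 2) * (1 - (1 / 2) ^ J) := by
      have h8 : c * (1 / 2 : ℝ) ^ J * Real.log T ≤ ε / 4 * Real.log T := by gcongr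
      have h9 : 0 ≤ c * (J * Real.log 2) * (1 / 2 : ℝ) ^ J := by positivity
      have h10 : c * (Real.log T - J * Real.log 2) * (1 - (1 / 2) ^ J) =
          c * Real.log T - c * (1 / 2 : ℝ) ^ J * Real.log T - c * (J * Real.log 2) +
            c * (J * Real.log 2) * (1 / 2 : ℝ) ^ J := by ring
      rw [h10]
      linarith
    have h11 : VB β - ε = c - ε / 2 := by rw [hc]; ring
    rw [h11]
    calc (c - ε / 2) * (T / (2 * Real.pi) * Real.log T) =
        (T / (2 * Real.pi)) * ((c - ε / 2) * Real.log T) := by ring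
      _ ≤ (T / (2 * Real.pi)) * (c * (Real.log T - J * Real.log 2) * (1 - (1 / 2) ^ J)) := by
        gcongr
      _ = _ := by ring

end H321PC
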