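import Pool.Agent.H321R3.PC.Sum

/-! The value of the lower bound function, in closed form. -/

open MeasureTheory

namespace H321PC

open H370 H370.A2 H370.A3

/-- the transform of Selberg's minorant -/
noncomputable def sel (y : ℝ) : ℝ :=
  if |y| ≤ 1 then 1 - |y| + Real.sin (2 * Real.pi * |y|) / (2 * Real.pi) else 0

noncomputable def VV1 (β : ℝ) : ℝ :=
  β * (1 + 2 * (∫ α in (0 : ℝ)..1, α * sel (β * α)) +
    2 * ∫ α in (1 : ℝ)..(3 / 2), (3 / 2 - α) * sel (β * α))

lemma sel_eq {y : ℝ} (h0 : 0 ≤ y) : sel y = ss (min y 1) := by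
  unfold sel
  rw [abs_of_nonneg h0]
  split_ifs with h
  · rw [min_eq_left h]; rfl
  · push Not at h
    rw [min_eq_right h.le, ss_one]

lemma VV1_eq {β : ℝ} (hβ : 0 < β) (hβ1 : β ≤ 1) : VV1 β = VB β := by
  unfold VV1 VB gg
  have h1 : ∫ α in (0 : ℝ)..1, α * sel (β * α) = ∫ α in (0 : ℝ)..1, α * ss (β * α) := by
    refine intervalIntegral.integral_congr fun α hα => ?_
    rw [Set.uIcc_of_le zero_le_one] at hα
    rw [sel_eq (by have := hα.1; positivity), min_eq_left]
    nlinarith [hα.1, hα.2]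
  have h2 : ∫ α in (1 : ℝ)..(3 / 2), (3 / 2 - α) * ps β α =
      β * ∫ α in (1 : ℝ)..(3 / 2), (3 / 2 - α) * sel (β * α) := by
    rw [← intervalIntegral.integral_const_mul]
    refine intervalIntegral.integral_congr fun α hα => ?_
    rw [Set.uIcc_of_le (by norm_num)] at hα
    have h0 : 0 ≤ α := by linarith [hα.1]
    rw [sel_eq (by positivity)]
    unfold ps
    rw [abs_of_nonneg h0]
    ring
  rw [h1, h2]
  ring

lemma int_one (β : ℝ) (hβ : 0 < β) (hβ1 : β ≤ 1) :
    ∫ α in (0 : ℝ)..1, α * sel (β * α) = 1 / 2 - β / 3 +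
      (Real.sin (2 * Real.pi * β) / (2 * Real.pi * β) ^ 2 -
        Real.cos (2 * Real.pi * β) / (2 * Real.pi * β)) / (2 * Real.pi) := by
  have hpi := Real.pi_pos
  set k : ℝ := 2 * Real.pi * β with hk
  have hk0 : 0 < k := by positivity
  have h1 : ∫ α in (0 : ℝ)..1, α * sel (β * α) =
      ∫ α in (0 : ℝ)..1, α * (1 - β * α + Real.sin (k * α) / (2 * Real.pi)) := by
    refine intervalIntegral.integral_congr fun α hα => ?_
    rw [Set.uIcc_of_le zero_le_one] at hα
    have h2 : 0 ≤ β * α := by have := hα.1; positivity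
    have h3 : β * α ≤ 1 := by nlinarith [hα.1, hα.2]
    unfold sel
    rw [abs_of_nonneg h2, if_pos h3, hk]
    ring_nf
  rw [h1]
  have hd : ∀ α ∈ Set.uIcc (0 : ℝ) 1, HasDerivAt (fun α : ℝ => α ^ 2 / 2 - β * α ^ 3 / 3 +
      (Real.sin (k * α) / k ^ 2 - α * Real.cos (k * α) / k) / (2 * Real.pi))
      (α * (1 - β * α + Real.sin (k * α) / (2 * Real.pi))) α := by
    intro α _
    have g0 : HasDerivAt (fun α : ℝ => k * α) k α := by
      simpa using (hasDerivAt_id α).const_mul k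
    have g1 := g0.sin
    have g2 := g0.cos
    have g3 : HasDerivAt (fun α : ℝ => α ^ 2 / 2) α α := by
      refine ((hasDerivAt_pow 2 α).div_const 2).congr_deriv ?_
      simp
    have g4 : HasDerivAt (fun α : ℝ => β * α ^ 3 / 3) (β * α ^ 2) α := by
      refine (((hasDerivAt_pow 3 α).const_mul β).div_const 3).congr_deriv ?_
      simp
      ring
    have g5 := ((g1.div_const (k ^ 2)).sub (((hasDerivAt_id α).mul g2).div_const k)).div_const
      (2 * Real.pi)
    refine ((g3.sub g4).add g5).congr_deriv ?_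
    simp only [id]
    field_simp
    ring
  rw [intervalIntegral.integral_eq_sub_of_hasDerivAt hd (Continuous.intervalIntegrable
    (by fun_prop) _ _)]
  simp

lemma int_two (β : ℝ) (hβ : 0 < β) (hβ1 : β ≤ 2 / 3) :
    ∫ α in (1 : ℝ)..(3 / 2), (3 / 2 - α) * sel (β * α) = 1 / 8 - 7 * β / 48 +
      ((Real.sin (2 * Real.pi * β) - Real.sin (3 * Real.pi * β)) / (2 * Real.pi * β) ^ 2 +
        Real.cos (2 * Real.pi * β) / (2 * (2 * Real.pi * β))) / (2 * Real.pi) := by
  have hpi := Real.pi_pos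
  set k : ℝ := 2 * Real.pi * β with hk
  have hk0 : 0 < k := by positivity
  have h1 : ∫ α in (1 : ℝ)..(3 / 2), (3 / 2 - α) * sel (β * α) =
      ∫ α in (1 : ℝ)..(3 / 2), (3 / 2 - α) * (1 - β * α + Real.sin (k * α) / (2 * Real.pi)) := by
    refine intervalIntegral.integral_congr fun α hα => ?_
    rw [Set.uIcc_of_le (by norm_num)] at hα
    have h0 : 0 ≤ α := by linarith [hα.1]
    have h2 : 0 ≤ β * α := by positivity
    have h3 : β * α ≤ 1 := by nlinarith [hα.1, hα.2]
    unfold sel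
    rw [abs_of_nonneg h2, if_pos h3, hk]
    ring_nf
  rw [h1]
  have hd : ∀ α ∈ Set.uIcc (1 : ℝ) (3 / 2), HasDerivAt (fun α : ℝ =>
      (3 / 2) * α - (3 / 2) * β * α ^ 2 / 2 - α ^ 2 / 2 + β * α ^ 3 / 3 +
      (-((3 / 2 - α) * Real.cos (k * α)) / k - Real.sin (k * α) / k ^ 2) / (2 * Real.pi))
      ((3 / 2 - α) * (1 - β * α + Real.sin (k * α) / (2 * Real.pi))) α := by
    intro α _
    have g0 : HasDerivAt (fun α : ℝ => k * α) k α := by
      simpa using (hasDerivAt_id α).const_mul k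
    have g1 := g0.sin
    have g2 := g0.cos
    have g3 : HasDerivAt (fun α : ℝ => α ^ 2 / 2) α α := by
      refine ((hasDerivAt_pow 2 α).div_const 2).congr_deriv ?_
      simp
    have g4 : HasDerivAt (fun α : ℝ => β * α ^ 3 / 3) (β * α ^ 2) α := by
      refine (((hasDerivAt_pow 3 α).const_mul β).div_const 3).congr_deriv ?_
      simp
      ring
    have g5 : HasDerivAt (fun α : ℝ => (3 / 2) * β * α ^ 2 / 2) ((3 / 2) * β * α) α := by
      refine (((hasDerivAt_pow 2 α).const_mul ((3 / 2) * β)).div_const 2).congr_deriv ?_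
      simp
      ring
    have g6 : HasDerivAt (fun α : ℝ => (3 / 2 : ℝ) * α) (3 / 2) α := by
      simpa using (hasDerivAt_id α).const_mul (3 / 2 : ℝ)
    have g7 : HasDerivAt (fun α : ℝ => 3 / 2 - α) (-1) α := by
      simpa using (hasDerivAt_id α).const_sub (3 / 2 : ℝ)
    have g8 := ((((g7.mul g2).neg).div_const k).sub (g1.div_const (k ^ 2))).div_const
      (2 * Real.pi)
    refine ((((g6.sub g5).sub g3).add g4).add g8).congr_deriv ?_
    field_simp
    ring
  rw [intervalIntegral.integral_eq_sub_of_hasDerivAt hd (Continuous.intervalIntegrable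
    (by fun_prop) _ _)]
  have e1 : k * (3 / 2) = 3 * Real.pi * β := by rw [hk]; ring
  rw [e1, mul_one]
  field_simp
  ring

lemma VV1_formula (β : ℝ) (hβ : 0 < β) (hβ1 : β ≤ 2 / 3) :
    VV1 β = β * (9 / 4 - 23 / 24 * β +
      (2 * Real.sin (2 * Real.pi * β) - Real.sin (3 * Real.pi * β)) /
        (4 * Real.pi ^ 3 * β ^ 2) - Real.cos (2 * Real.pi * β) / (4 * Real.pi ^ 2 * β)) := by
  unfold VV1
  rw [int_one β hβ (by linarith), int_two β hβ hβ1]
  have hpi := Real.pi_pos
  field_simp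
  ring

lemma VV1_gt : 1 < VV1 (1157 / 2000) := by
  rw [VV1_formula _ (by norm_num) (by norm_num)]
  have hp1 := Real.pi_gt_d6
  have hp2 := Real.pi_lt_d6
  have hpi := Real.pi_pos
  set x : ℝ := 157 / 1000 * Real.pi with hx
  set y : ℝ := 529 / 2000 * Real.pi with hy
  have e1 : Real.sin (2 * Real.pi * (1157 / 2000)) = -Real.sin x := by
    have : 2 * Real.pi * (1157 / 2000) = x + Real.pi := by rw [hx]; ring
    rw [this, Real.sin_add_pi]
  have e2 : Real.cos (2 * Real.pi * (1157 / 2000)) = -Real.cos x := by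
    have : 2 * Real.pi * (1157 / 2000) = x + Real.pi := by rw [hx]; ring
    rw [this, Real.cos_add_pi]
  have e3 : Real.sin (3 * Real.pi * (1157 / 2000)) = -Real.sin y := by
    have : 3 * Real.pi * (1157 / 2000) = 2 * Real.pi - y := by rw [hy]; ring
    rw [this, Real.sin_two_pi_sub]
  rw [e1, e2, e3]
  have hx1 : 0.49322 < x := by rw [hx]; norm_num at hp1 ⊢; linarith
  have hx2 : x < 0.49324 := by rw [hx]; norm_num at hp2 ⊢; linarith
  have hy1 : 0.83094 < y := by rw [hy]; norm_num at hp1 ⊢; linarith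
  have hy2 : y < 0.83096 := by rw [hy]; norm_num at hp2 ⊢; linarith
  have hs1 : Real.sin x ≤ 0.47355 := by
    have h := (abs_le.1 (Real.sin_bound (x := x) (by rw [abs_of_pos (by linarith)]; linarith))).2
    rw [abs_of_pos (by linarith : 0 < x)] at h
    have h3 : (0.49322 : ℝ) ^ 3 ≤ x ^ 3 := by gcongr
    have h5 : x ^ 5 ≤ (0.49324 : ℝ) ^ 5 := by gcongr
    norm_num at h3 h5 ⊢
    linarith
  have hs2 : 0.7352 ≤ Real.sin y := by
    have h := Real.sin_gt_sub_cube (x := y) (by linarith)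
    have h3 : y ^ 3 ≤ (0.83096 : ℝ) ^ 3 := by gcongr
    norm_num at h3 ⊢
    linarith
  have hs3 : 0.8783 ≤ Real.cos x := by
    have h := Real.one_sub_sq_div_two_le_cos (x := x)
    have h3 : x ^ 2 ≤ (0.49324 : ℝ) ^ 2 := by gcongr
    norm_num at h3 ⊢
    linarith
  have hp3 : (31.0035 : ℝ) ≤ Real.pi ^ 3 := by
    have : (3.1415 : ℝ) ^ 3 ≤ Real.pi ^ 3 := by
      gcongr
      norm_num at hp1 ⊢
      linarith
    norm_num at this ⊢
    linarith
  have hp4 : Real.pi ^ 2 ≤ (9.86961 : ℝ) := by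
    have : Real.pi ^ 2 ≤ (3.141593 : ℝ) ^ 2 := by
      gcongr
    norm_num at this ⊢
    linarith
  have hA : -(0.00512 : ℝ) ≤ (2 * -Real.sin x - -Real.sin y) /
      (4 * Real.pi ^ 3 * (1157 / 2000) ^ 2) := by
    rw [le_div_iff₀ (by positivity)]
    norm_num at hp3 hs1 hs2 ⊢
    linarith
  have hB : (0.03845 : ℝ) ≤ Real.cos x / (4 * Real.pi ^ 2 * (1157 / 2000)) := by
    rw [le_div_iff₀ (by positivity)]
    norm_num at hp4 hs3 ⊢
    linarith
  rw [neg_div]
  norm_num at hA hB ⊢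
  linarith

end H321PC
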